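import Mathlib.LinearAlgebra.ExteriorAlgebra.Basis
import Mathlib.LinearAlgebra.StdBasis
import Mathlib.Tactic

/-! # Grassmann algebras: basis, filtration, parity -/

namespace Pool.Agent.Q111.RBG

open Finset

variable {F : Type*} [Field F] {n : ℕ}

/-- The Grassmann algebra on `n` generators. -/
abbrev Gr (F : Type*) [Field F] (n : ℕ) := ExteriorAlgebra F (Fin n → F)

/-- The monomial basis. -/
noncomputable def E : Module.Basis (Finset (Fin n)) F (Gr F n) :=
  (Pi.basisFun F (Fin n)).ExteriorAlgebra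

lemma E_mul_nd {S T : Finset (Fin n)} (h : ¬ Disjoint S T) : (E S * E T : Gr F n) = 0 :=
  ExteriorAlgebra.basis_mul_of_not_disjoint (Pi.basisFun F (Fin n))
    (Set.powersetCard.ofCard (rfl : S.card = S.card))
    (Set.powersetCard.ofCard (rfl : T.card = T.card)) h

lemma E_mul_d {S T : Finset (Fin n)} (h : Disjoint S T) :
    (E S * E T : Gr F n) = E (S ∪ T) ∨ (E S * E T : Gr F n) = - E (S ∪ T) := by
  have h' : Disjoint (Set.powersetCard.ofCard (rfl : S.card = S.card)).val
    (Set.powersetCard.ofCard (rfl : T.card = T.card)).val := h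
  have := ExteriorAlgebra.basis_mul_of_disjoint (Pi.basisFun F (Fin n)) _ _ h'
  have e : ((Set.powersetCard.disjUnion h' : Set.powersetCard (Fin n) _) : Finset (Fin n))
      = S ∪ T := by
    simp [Set.powersetCard.disjUnion]
  rw [e] at this
  rcases Int.units_eq_one_or (Equiv.Perm.sign (Set.powersetCard.permOfDisjoint h')) with hs | hs
  · left
    rw [hs, one_smul] at this
    exact this
  · right
    rw [hs] at this
    rw [show (-1 : ℤˣ) • ((Pi.basisFun F (Fin n)).ExteriorAlgebra (S ∪ T)) =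
      - (Pi.basisFun F (Fin n)).ExteriorAlgebra (S ∪ T) by simp] at this
    exact this

lemma E_empty : (E (∅ : Finset (Fin n)) : Gr F n) = 1 := by
  rw [E, ExteriorAlgebra.basis_apply_ofCard (n := 0) _ (by simp)]
  simp [ExteriorAlgebra.ιMulti_family]

lemma E_ne_zero (S : Finset (Fin n)) : (E S : Gr F n) ≠ 0 := Module.Basis.ne_zero _ _

lemma g_eq (i : Fin n) : ∃ v, (E {i} : Gr F n) = ExteriorAlgebra.ι F v := by
  have h1 : (E {i} : Gr F n) = (Pi.basisFun F (Fin n)).ExteriorAlgebra {i} := rfl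
  rw [ExteriorAlgebra.basis_apply_ofCard (n := 1) _ (by simp)] at h1
  simp only [ExteriorAlgebra.ιMulti_family] at h1
  rw [ExteriorAlgebra.ιMulti_apply] at h1
  simp only [List.ofFn_succ, List.ofFn_zero, List.prod_cons, List.prod_nil, mul_one] at h1
  exact ⟨_, h1⟩

lemma g_anti (i j : Fin n) : (E {i} * E {j} : Gr F n) = -(E {j} * E {i}) := by
  obtain ⟨v, hv⟩ := g_eq (F := F) i
  obtain ⟨w, hw⟩ := g_eq (F := F) j
  rw [hv, hw]
  exact eq_neg_of_add_eq_zero_left (ExteriorAlgebra.ι_add_mul_swap v w)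

lemma E_insert {i : Fin n} {S : Finset (Fin n)} (h : i ∉ S) :
    ∃ ε : F, (E (insert i S) : Gr F n) = ε • (E {i} * E S) := by
  have h' : Disjoint {i} S := by simpa using h
  have e : insert i S = {i} ∪ S := rfl
  rw [e]
  rcases E_mul_d (F := F) h' with h1 | h1
  · exact ⟨1, by rw [h1, one_smul]⟩
  · exact ⟨-1, by rw [h1]; simp⟩

lemma E_mul_g (S : Finset (Fin n)) (j : Fin n) :
    (E S * E {j} : Gr F n) = (-1 : F) ^ S.card • (E {j} * E S) := by
  induction S using Finset.induction_on with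
  | empty => simp [E_empty]
  | insert i S hi ih =>
    obtain ⟨ε, hε⟩ := E_insert (F := F) hi
    rw [hε, Finset.card_insert_of_notMem hi, smul_mul_assoc, mul_assoc, ih, mul_smul_comm,
      ← mul_assoc, g_anti i j, mul_smul_comm, neg_mul, mul_assoc, pow_succ, smul_neg, smul_neg,
      smul_smul, smul_smul, ← neg_smul]
    congr 1
    ring

lemma E_comm (S T : Finset (Fin n)) :
    (E S * E T : Gr F n) = (-1 : F) ^ (S.card * T.card) • (E T * E S) := by
  induction T using Finset.induction_on with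
  | empty => simp [E_empty]
  | insert i T hi ih =>
    obtain ⟨ε, hε⟩ := E_insert (F := F) hi
    rw [hε, Finset.card_insert_of_notMem hi, mul_smul_comm, ← mul_assoc, E_mul_g,
      smul_mul_assoc, mul_assoc, ih, mul_smul_comm, smul_mul_assoc, mul_assoc, smul_smul,
      smul_smul, smul_smul]
    congr 1
    ring

/-- The span of the monomials whose support satisfies `P`. -/
noncomputable def sp (P : Finset (Fin n) → Prop) : Submodule F (Gr F n) :=
  Submodule.span F (E '' {S | P S})

lemma E_mem {P : Finset (Fin n) → Prop} {S : Finset (Fin n)} (h : P S) : (E S : Gr F n) ∈ sp P :=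
  Submodule.subset_span ⟨S, h, rfl⟩

lemma sp_mono {P Q : Finset (Fin n) → Prop} (h : ∀ S, P S → Q S) {x : Gr F n} (hx : x ∈ sp P) :
    x ∈ sp Q := by
  refine Submodule.span_mono ?_ hx
  rintro _ ⟨S, hS, rfl⟩
  exact ⟨S, h S hS, rfl⟩

lemma sp_all {P : Finset (Fin n) → Prop} (h : ∀ S, P S) (x : Gr F n) : x ∈ sp P := by
  rw [← E.sum_repr x]
  exact Submodule.sum_mem _ fun S _ => Submodule.smul_mem _ _ (E_mem (h S))

lemma sp_none {P : Finset (Fin n) → Prop} (h : ∀ S, ¬ P S) {x : Gr F n} (hx : x ∈ sp P) :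
    x = 0 := by
  have : {S : Finset (Fin n) | P S} = ∅ := by
    ext S; simp [h S]
  rw [sp, this, Set.image_empty, Submodule.span_empty] at hx
  simpa using hx

lemma sp_mul {P Q U : Finset (Fin n) → Prop}
    (h : ∀ S T, P S → Q T → Disjoint S T → U (S ∪ T)) {x y : Gr F n} (hx : x ∈ sp P)
    (hy : y ∈ sp Q) : x * y ∈ sp U := by
  induction hx using Submodule.span_induction with
  | zero => rw [zero_mul]; exact Submodule.zero_mem _
  | add a b _ _ ha hb => rw [add_mul]; exact Submodule.add_mem _ ha hb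
  | smul c a _ ha => rw [smul_mul_assoc]; exact Submodule.smul_mem _ _ ha
  | mem a ha =>
    obtain ⟨S, hS, rfl⟩ := ha
    induction hy using Submodule.span_induction with
    | zero => rw [mul_zero]; exact Submodule.zero_mem _
    | add a b _ _ ha hb => rw [mul_add]; exact Submodule.add_mem _ ha hb
    | smul c a _ ha => rw [mul_smul_comm]; exact Submodule.smul_mem _ _ ha
    | mem b hb =>
      obtain ⟨T, hT, rfl⟩ := hb
      by_cases hd : Disjoint S T
      · rcases E_mul_d (F := F) hd with h1 | h1 <;> rw [h1]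
        · exact E_mem (h S T hS hT hd)
        · exact Submodule.neg_mem _ (E_mem (h S T hS hT hd))
      · rw [E_mul_nd hd]; exact Submodule.zero_mem _

lemma sp_split {P : Finset (Fin n) → Prop} (Q : Finset (Fin n) → Prop) {x : Gr F n}
    (hx : x ∈ sp P) :
    ∃ y ∈ sp (F := F) (fun S => P S ∧ Q S), ∃ z ∈ sp (F := F) (fun S => P S ∧ ¬ Q S),
      x = y + z := by
  induction hx using Submodule.span_induction with
  | zero => exact ⟨0, Submodule.zero_mem _, 0, Submodule.zero_mem _, by simp⟩
  | add a b _ _ ha hb =>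
    obtain ⟨y, hy, z, hz, rfl⟩ := ha
    obtain ⟨y', hy', z', hz', rfl⟩ := hb
    exact ⟨y + y', Submodule.add_mem _ hy hy', z + z', Submodule.add_mem _ hz hz', by abel⟩
  | smul c a _ ha =>
    obtain ⟨y, hy, z, hz, rfl⟩ := ha
    exact ⟨c • y, Submodule.smul_mem _ _ hy, c • z, Submodule.smul_mem _ _ hz, by simp⟩
  | mem a ha =>
    obtain ⟨S, hS, rfl⟩ := ha
    by_cases hQ : Q S
    · exact ⟨E S, E_mem ⟨hS, hQ⟩, 0, Submodule.zero_mem _, by simp⟩
    · exact ⟨0, Submodule.zero_mem _, E S, E_mem ⟨hS, hQ⟩, by simp⟩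

/-- The `k`-th power of the augmentation ideal. -/
noncomputable abbrev J (k : ℕ) : Submodule F (Gr F n) := sp fun S => k ≤ S.card

lemma J_mul {k l r : ℕ} (h : r ≤ k + l) {x y : Gr F n} (hx : x ∈ J k) (hy : y ∈ J l) :
    x * y ∈ J (F := F) (n := n) r :=
  sp_mul (fun S T hS hT hd => by rw [Finset.card_union_of_disjoint hd]; omega) hx hy

lemma J_le {k l : ℕ} (h : l ≤ k) {x : Gr F n} (hx : x ∈ J k) : x ∈ J (F := F) (n := n) l :=
  sp_mono (fun _ hS => h.trans hS) hx

lemma J_zero (x : Gr F n) : x ∈ J (F := F) (n := n) 0 := sp_all (fun _ => Nat.zero_le _) x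

lemma J_top {k : ℕ} (hk : n < k) {x : Gr F n} (hx : x ∈ J k) : x = 0 :=
  sp_none (fun S => by
    have := Finset.card_le_univ S
    rw [Fintype.card_fin] at this
    omega) hx

lemma J_last {x : Gr F n} (hx : x ∈ J n) : ∃ c : F, x = c • (E univ : Gr F n) := by
  have : {S : Finset (Fin n) | n ≤ S.card} = {univ} := by
    ext S
    simp only [Set.mem_ofPred_eq, Set.mem_singleton_iff]
    constructor
    · intro h
      apply Finset.eq_univ_of_card
      have := Finset.card_le_univ S
      rw [Fintype.card_fin] at *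
      omega
    · rintro rfl; simp
  unfold J sp at hx
  rw [this, Set.image_singleton, Submodule.mem_span_singleton] at hx
  obtain ⟨c, hc⟩ := hx
  exact ⟨c, hc.symm⟩

lemma scalar_part (x : Gr F n) : ∃ c : F, ∃ y ∈ J (F := F) (n := n) 1, x = c • 1 + y := by
  obtain ⟨y, hy, z, hz, h⟩ := sp_split (fun S => S.card = 0) (J_zero x)
  have : y ∈ Submodule.span F {(E ∅ : Gr F n)} := by
    refine Submodule.span_mono ?_ hy
    rintro _ ⟨S, ⟨_, hS⟩, rfl⟩
    rw [Finset.card_eq_zero] at hS
    rw [hS]; rfl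
  rw [Submodule.mem_span_singleton] at this
  obtain ⟨c, hc⟩ := this
  refine ⟨c, z, sp_mono (fun S hS => ?_) hz, ?_⟩
  · obtain ⟨_, h2⟩ := hS
    omega
  · rw [h, ← hc, E_empty]

/-- The even part of `J k`. -/
noncomputable abbrev Je (k : ℕ) : Submodule F (Gr F n) := sp fun S => k ≤ S.card ∧ Even S.card
/-- The odd part of `J k`. -/
noncomputable abbrev Jo (k : ℕ) : Submodule F (Gr F n) := sp fun S => k ≤ S.card ∧ ¬ Even S.card

lemma parity {k : ℕ} {x : Gr F n} (hx : x ∈ J k) :
    ∃ y ∈ Je (F := F) (n := n) k, ∃ z ∈ Jo (F := F) (n := n) k, x = y + z :=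
  sp_split _ hx

lemma Je_J {k : ℕ} {x : Gr F n} (hx : x ∈ Je k) : x ∈ J (F := F) (n := n) k :=
  sp_mono (fun _ h => h.1) hx

lemma Jo_J {k : ℕ} {x : Gr F n} (hx : x ∈ Jo k) : x ∈ J (F := F) (n := n) k :=
  sp_mono (fun _ h => h.1) hx

lemma Je_one {x : Gr F n} (hx : x ∈ Je 1) : x ∈ J (F := F) (n := n) 2 :=
  sp_mono (fun S h => by
    obtain ⟨h1, r, h2⟩ := h
    omega) hx

lemma even_comm {k : ℕ} {x : Gr F n} (hx : x ∈ Je k) (y : Gr F n) : x * y = y * x := by
  induction hx using Submodule.span_induction with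
  | zero => simp
  | add a b _ _ ha hb => rw [add_mul, mul_add, ha, hb]
  | smul c a _ ha => rw [smul_mul_assoc, mul_smul_comm, ha]
  | mem a ha =>
    obtain ⟨S, hS, rfl⟩ := ha
    rw [← E.sum_repr y, Finset.mul_sum, Finset.sum_mul]
    refine Finset.sum_congr rfl fun T _ => ?_
    rw [mul_smul_comm, smul_mul_assoc, E_comm S T, (hS.2.mul_right T.card).neg_one_pow, one_smul]

lemma odd_anti {k l : ℕ} {x y : Gr F n} (hx : x ∈ Jo k) (hy : y ∈ Jo l) :
    x * y = -(y * x) := by
  induction hx using Submodule.span_induction with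
  | zero => simp
  | add a b _ _ ha hb => rw [add_mul, mul_add, ha, hb]; abel
  | smul c a _ ha => rw [smul_mul_assoc, mul_smul_comm, ha, smul_neg]
  | mem a ha =>
    obtain ⟨S, hS, rfl⟩ := ha
    induction hy using Submodule.span_induction with
    | zero => simp
    | add a b _ _ ha hb => rw [add_mul, mul_add, ha, hb]; abel
    | smul c a _ ha => rw [smul_mul_assoc, mul_smul_comm, ha, smul_neg]
    | mem b hb =>
      obtain ⟨T, hT, rfl⟩ := hb
      have h1 : Odd S.card := Nat.not_even_iff_odd.1 hS.2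
      have h2 : Odd T.card := Nat.not_even_iff_odd.1 hT.2
      rw [E_comm S T, (h1.mul h2).neg_one_pow, neg_smul, one_smul]

/-- Nondegeneracy of the top-degree form. -/
lemma frob {u : Gr F n} (hu : u ≠ 0) : ∃ y, u * y = E univ := by
  classical
  have hne : (univ.filter fun S => E.repr u S ≠ 0).Nonempty := by
    by_contra h
    rw [Finset.not_nonempty_iff_eq_empty] at h
    apply hu
    apply E.repr.injective
    ext S
    have : S ∉ univ.filter fun S => E.repr u S ≠ 0 := by rw [h]; simp
    simpa using this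
  obtain ⟨S, hS, hmin⟩ := Finset.exists_min_image _ Finset.card hne
  have hS' : E.repr u S ≠ 0 := by simpa using hS
  have key : u * E Sᶜ = E.repr u S • (E S * E Sᶜ) := by
    nth_rewrite 1 [← E.sum_repr u]
    rw [Finset.sum_mul, Finset.sum_eq_single S]
    · rw [smul_mul_assoc]
    · intro T _ hTS
      by_cases hT : E.repr u T = 0
      · rw [hT]; simp
      · rw [smul_mul_assoc, E_mul_nd, smul_zero]
        intro hd
        have hsub : T ⊆ S := by
          exact disjoint_compl_right_iff.1 hd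
        have hc := hmin T (by simpa using hT)
        exact hTS (Finset.eq_of_subset_of_card_le hsub hc)
    · intro h; exact absurd (Finset.mem_univ S) h
  have hd : Disjoint S Sᶜ := disjoint_compl_right
  rcases E_mul_d (F := F) hd with h1 | h1
  · refine ⟨(E.repr u S)⁻¹ • E Sᶜ, ?_⟩
    rw [mul_smul_comm, key, h1, smul_smul, inv_mul_cancel₀ hS', one_smul, Finset.union_compl]
  · refine ⟨-(E.repr u S)⁻¹ • E Sᶜ, ?_⟩
    rw [mul_smul_comm, key, h1, smul_smul, neg_mul, inv_mul_cancel₀ hS', neg_smul, one_smul,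
      neg_neg, Finset.union_compl]

end Pool.Agent.Q111.RBG
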