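import Pool.Agent.Q111.RBG.Lower

/-! # Rota–Baxter operators on Grassmann algebras: the examples -/

namespace Pool.Agent.Q111.RBG

open Finset

variable {F : Type*} [Field F] {n : ℕ}

lemma E_mul_d' {S T : Finset (Fin n)} (h : Disjoint S T) :
    ∃ ε : F, ε ≠ 0 ∧ (E S * E T : Gr F n) = ε • E (S ∪ T) := by
  rcases E_mul_d (F := F) h with h1 | h1
  · exact ⟨1, one_ne_zero, by rw [h1, one_smul]⟩
  · exact ⟨-1, neg_ne_zero.2 one_ne_zero, by rw [h1]; simp⟩

lemma blk_card (s k : ℕ) (h : 2 * (s + k) ≤ n) : (blk n s k).card = 2 * k := by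
  induction k with
  | zero =>
    rw [Finset.card_eq_zero.2]
    ext j; simp [blk]
  | succ k ih =>
    have hd : Disjoint (blk n s k) (pr n (s + k)) := by
      rw [Finset.disjoint_left]
      intro j hj hj'
      simp only [blk, pr, Finset.mem_filter, Finset.mem_univ, true_and] at hj hj'
      omega
    have hu : blk n s (k + 1) = blk n s k ∪ pr n (s + k) := by
      ext j
      simp only [blk, pr, Finset.mem_union, Finset.mem_filter, Finset.mem_univ, true_and]
      omega
    rw [hu, Finset.card_union_of_disjoint hd, ih (by omega), pr_card (by omega)]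
    ring

section Common

variable {B : Finset (Fin n)} {k : ℕ} {p q : Fin n} {t : ℤ}

/-- the weights: `1` on `B`, `-(2k+2)` on `p`, `t` on `q`, `0` elsewhere -/
def Wf (B : Finset (Fin n)) (k : ℕ) (p q : Fin n) (t : ℤ) (i : Fin n) : ℤ :=
  (if i ∈ B then 1 else 0) + (if i = p then -(2 * k + 2 : ℤ) else 0) + (if i = q then t else 0)

lemma wt_Wf (S : Finset (Fin n)) : wt (Wf B k p q t) S =
    (S ∩ B).card + (if p ∈ S then -(2 * k + 2 : ℤ) else 0) + (if q ∈ S then t else 0) := by
  unfold wt Wf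
  rw [Finset.sum_add_distrib, Finset.sum_add_distrib, Finset.sum_ite_eq', Finset.sum_ite_eq']
  congr 2
  rw [Finset.sum_boole, Finset.filter_mem_eq_inter]

lemma wt_two (hB : B.card = 2 * k) (ht : 2 * k + 2 ≤ t) {S : Finset (Fin n)}
    (h : wt (Wf B k p q t) S = -2) : p ∈ S ∧ q ∉ S ∧ (S ∩ B).card = 2 * k := by
  rw [wt_Wf] at h
  have h1 : (S ∩ B).card ≤ 2 * k := by rw [← hB]; exact Finset.card_le_card Finset.inter_subset_right
  by_cases hp : p ∈ S <;> by_cases hq : q ∈ S <;> simp only [hp, hq, if_true, if_false] at h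
  · omega
  · exact ⟨hp, hq, by omega⟩
  · omega
  · omega

lemma wt_four (hB : B.card = 2 * k) (ht : 2 * k + 2 ≤ t) {S : Finset (Fin n)}
    (h : wt (Wf B k p q t) S = -4) : p ∈ S ∧ (S ∩ B).card + 2 = 2 * k := by
  rw [wt_Wf] at h
  have h1 : (S ∩ B).card ≤ 2 * k := by rw [← hB]; exact Finset.card_le_card Finset.inter_subset_right
  by_cases hp : p ∈ S <;> by_cases hq : q ∈ S <;> simp only [hp, hq, if_true, if_false] at h
  · omega
  · exact ⟨hp, by omega⟩
  · omega
  · omega

lemma raise {a x : Gr F n} {j : ℕ} (ha : a ∈ sp (F := F) fun U => p ∈ U ∨ 2 ≤ (U ∩ B).card)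
    (hx : x ∈ sp (F := F) fun S => p ∈ S ∧ j ≤ (S ∩ B).card) :
    a * x ∈ sp (F := F) fun S => p ∈ S ∧ j + 2 ≤ (S ∩ B).card := by
  refine sp_mul (fun U S hU hS hd => ?_) ha hx
  refine ⟨Finset.mem_union_right _ hS.1, ?_⟩
  rcases hU with hU | hU
  · exact absurd hS.1 (Finset.disjoint_left.1 hd hU)
  · rw [Finset.union_inter_distrib_right, Finset.card_union_of_disjoint]
    · omega
    · exact Finset.disjoint_of_subset_left Finset.inter_subset_left
        (Finset.disjoint_of_subset_right Finset.inter_subset_left hd)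

lemma H2_of (hB : B.card = 2 * k) (ht : 2 * k + 2 ≤ t) {a : Gr F n}
    (ha : a ∈ sp (F := F) fun U => p ∈ U ∨ 2 ≤ (U ∩ B).card) (S : Finset (Fin n))
    (h : wt (Wf B k p q t) S = -2) : a * E S = 0 := by
  obtain ⟨h1, -, h2⟩ := wt_two hB ht h
  have h3 : (E S : Gr F n) ∈ sp (F := F) fun S => p ∈ S ∧ 2 * k ≤ (S ∩ B).card :=
    E_mem ⟨h1, h2.ge⟩
  refine sp_none (fun T hT => ?_) (raise ha h3)
  have : (T ∩ B).card ≤ 2 * k := by rw [← hB]; exact Finset.card_le_card Finset.inter_subset_right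
  omega

lemma H4_of (hB : B.card = 2 * k) (ht : 2 * k + 2 ≤ t) {a : Gr F n}
    (ha : a ∈ sp (F := F) fun U => p ∈ U ∨ 2 ≤ (U ∩ B).card) (S : Finset (Fin n))
    (h : wt (Wf B k p q t) S = -4) : a * (a * E S) = 0 := by
  obtain ⟨h1, h2⟩ := wt_four hB ht h
  have h3 : (E S : Gr F n) ∈ sp (F := F) fun S => p ∈ S ∧ (2 * k - 2) ≤ (S ∩ B).card :=
    E_mem ⟨h1, by omega⟩
  refine sp_none (fun T hT => ?_) (raise ha (raise ha h3))
  have : (T ∩ B).card ≤ 2 * k := by rw [← hB]; exact Finset.card_le_card Finset.inter_subset_right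
  omega

lemma sub_of (hB : B.card = 2 * k) {S : Finset (Fin n)} (h : (S ∩ B).card = 2 * k) : B ⊆ S := by
  have : S ∩ B = B := Finset.eq_of_subset_of_card_le Finset.inter_subset_right (by omega)
  rw [← this]; exact Finset.inter_subset_left

lemma wt_s0 (hB : B.card = 2 * k) (hp : p ∉ B) (hq : q ∉ B) (hpq : p ≠ q) :
    wt (Wf B k p q t) (B ∪ {p}) = -2 := by
  have h1 : (B ∪ {p}) ∩ B = B := by
    ext i; simp only [Finset.mem_inter, Finset.mem_union, Finset.mem_singleton]; tauto
  have h2 : q ∉ B ∪ {p} := by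
    simp only [Finset.mem_union, Finset.mem_singleton]; tauto
  rw [wt_Wf, h1, hB, if_pos (by simp), if_neg h2]
  push_cast; ring

/-- the two halves of the chain put together -/
lemma long [CharZero F] {a b Y : Gr F n} (hB : B.card = 2 * k) (hp : p ∉ B) (hq : q ∉ B)
    (hpq : p ≠ q) (ha : a ∈ Aw (Wf B k p q t) 2) {c : F} (hc : c ≠ 0)
    (hb : a ^ k * E {p} = b ^ k * E {p}) (hbk : b ^ k = c • E B)
    (hY : Y ∈ Aw (Wf B k p q t) 0) {j : ℕ} (hj : a ^ j * Y ≠ 0) :
    (Rop (Wf B k p q t) a Y (B ∪ {p})) ^ (j + 1 + k) ≠ 0 := by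
  intro h0
  have hwp : (E {p} : Gr F n) ∈ Aw (F := F) (Wf B k p q t) (-(2 * k + 2)) := by
    refine E_mem ?_
    have h1 : ({p} : Finset (Fin n)) ∩ B = ∅ := by
      rw [Finset.singleton_inter_of_notMem hp]
    rw [wt_Wf, h1, if_pos (by simp), if_neg (by simpa using hpq.symm)]
    simp
  obtain ⟨c1, hc1, h1⟩ := chain (s0 := B ∪ {p}) (Y := Y) ha hwp k (fun i hi => by omega)
  have hd : Disjoint B {p} := by simpa using hp
  obtain ⟨ε, hε, h2⟩ := E_mul_d' (F := F) hd
  have h3 : ((Rop (Wf B k p q t) a Y (B ∪ {p})) ^ k) (E {p}) = (c1 * c * ε) • E (B ∪ {p}) := by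
    rw [h1, hb, hbk, smul_mul_assoc, h2, smul_smul, smul_smul, mul_assoc]
  have h4 : Rop (Wf B k p q t) a Y (B ∪ {p}) (E (B ∪ {p})) = Y := by
    rw [Rop_E, if_pos (wt_s0 hB hp hq hpq), if_pos rfl]
  obtain ⟨c2, hc2, h5⟩ := chain (s0 := B ∪ {p}) (Y := Y) ha hY j (fun i hi => by omega)
  have h6 : ((Rop (Wf B k p q t) a Y (B ∪ {p})) ^ (j + 1 + k)) (E {p}) =
      (c1 * c * ε) • (c2 • (a ^ j * Y)) := by
    rw [pow_add, pow_add, pow_one, Module.End.mul_apply, Module.End.mul_apply, h3, map_smul, h4,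
      map_smul, h5]
  rw [h0, LinearMap.zero_apply] at h6
  have h7 := (smul_eq_zero.1 h6.symm).resolve_left (mul_ne_zero (mul_ne_zero hc1 hc) hε)
  exact hj ((smul_eq_zero.1 h7).resolve_left hc2)

end Common

lemma a_mem_wt {B : Finset (Fin n)} {k : ℕ} {p q : Fin n} {t : ℤ} {s l : ℕ}
    (h : 2 * (s + l) ≤ n) (hsub : ∀ i, i < l → pr n (s + i) ⊆ B)
    (hp : p ∉ B) (hq : q ∉ B) : asum F n s l ∈ Aw (F := F) (Wf B k p q t) 2 := by
  refine Submodule.sum_mem _ fun i hi => E_mem ?_
  have hi' := Finset.mem_range.1 hi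
  have h1 := hsub i hi'
  rw [wt_Wf, Finset.inter_eq_left.2 h1, pr_card (by omega), if_neg (fun h => hp (h1 h)),
    if_neg (fun h => hq (h1 h))]
  norm_num

lemma a_mem_up {B : Finset (Fin n)} {p : Fin n} {s l : ℕ}
    (h : 2 * (s + l) ≤ n) (hsub : ∀ i, i < l → pr n (s + i) ⊆ B) :
    asum F n s l ∈ sp (F := F) fun U => p ∈ U ∨ 2 ≤ (U ∩ B).card := by
  refine Submodule.sum_mem _ fun i hi => E_mem (Or.inr ?_)
  have hi' := Finset.mem_range.1 hi
  rw [Finset.inter_eq_left.2 (hsub i hi'), pr_card (by omega)]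

theorem lower_even [CharZero F] (m : ℕ) :
    ∃ R : Gr F (2 * m + 2) →ₗ[F] Gr F (2 * m + 2), IsRB R ∧ R ^ (2 * m + 1) ≠ 0 := by
  set n := 2 * m + 2 with hn
  set B := blk n 0 m with hBdef
  let p : Fin n := ⟨2 * m, by omega⟩
  let q : Fin n := ⟨2 * m + 1, by omega⟩
  have hB : B.card = 2 * m := blk_card 0 m (by omega)
  have hp : p ∉ B := by simp [hBdef, blk, p]
  have hq : q ∉ B := by simp [hBdef, blk, q]
  have hpq : p ≠ q := by simp [p, q]
  have hsub : ∀ i, i < m → pr n (0 + i) ⊆ B := by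
    intro i hi j hj
    simp only [pr, hBdef, blk, Finset.mem_filter, Finset.mem_univ, true_and] at hj ⊢
    omega
  set a := asum F n 0 m with hadef
  set Y : Gr F n := E {p, q} with hYdef
  have ha : a ∈ Aw (F := F) (Wf B m p q (2 * m + 2)) 2 := a_mem_wt (by omega) hsub hp hq
  have hc : ∀ x, a * x = x * a := fun x => even_comm (asum_even (by omega)) x
  have hu : a ∈ sp (F := F) fun U => p ∈ U ∨ 2 ≤ (U ∩ B).card := a_mem_up (by omega) hsub
  have hY : Y ∈ Aw (F := F) (Wf B m p q (2 * m + 2)) 0 := by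
    refine E_mem ?_
    have h1 : ({p, q} : Finset (Fin n)) ∩ B = ∅ := by
      ext i
      simp only [Finset.mem_inter, Finset.mem_insert, Finset.mem_singleton,
        Finset.notMem_empty, iff_false]
      rintro ⟨rfl | rfl, h⟩
      · exact hp h
      · exact hq h
    rw [wt_Wf, h1, if_pos (by simp), if_pos (by simp)]
    simp
  have hR : IsRB (Rop (Wf B m p q (2 * m + 2)) a Y (B ∪ {p})) := by
    refine Rop_isRB ha hc (H2_of hB le_rfl hu) (H4_of hB le_rfl hu) hY ?_ ?_ ?_
    · exact E_mul_nd (by simp)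
    · rw [E_mul_nd, E_mul_nd, add_zero]
      · rw [Finset.not_disjoint_iff]; exact ⟨p, by simp, by simp⟩
      · rw [Finset.not_disjoint_iff]; exact ⟨p, by simp, by simp⟩
    · intro T hT hne
      exfalso
      apply hne
      obtain ⟨h1, h2, h3⟩ := wt_two hB le_rfl hT
      have h4 := sub_of hB h3
      ext i
      simp only [Finset.mem_union, Finset.mem_singleton]
      constructor
      · intro hi
        by_cases hip : i = p
        · exact Or.inr hip
        · left
          have hiq : i ≠ q := fun h => h2 (h ▸ hi)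
          simp only [hBdef, blk, Finset.mem_filter, Finset.mem_univ, true_and]
          simp only [p, q, ne_eq, Fin.ext_iff] at hip hiq
          have := i.isLt
          omega
      · rintro (hi | rfl)
        · exact h4 hi
        · exact h1
  refine ⟨_, hR, ?_⟩
  obtain ⟨c, hc0, hcB⟩ := asum_pow (F := F) (n := n) 0 m (by omega)
  have e : 2 * m + 1 = m + 1 + m := by ring
  rw [e]
  refine long hB hp hq hpq ha hc0 rfl hcB hY ?_
  rw [hadef, hcB, smul_mul_assoc]
  have hd : Disjoint (blk n 0 m) {p, q} := by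
    rw [Finset.disjoint_left]
    intro i hi hi'
    simp only [Finset.mem_insert, Finset.mem_singleton] at hi'
    rcases hi' with rfl | rfl
    · exact hp hi
    · exact hq hi
  obtain ⟨ε, hε, h2⟩ := E_mul_d' (F := F) hd
  rw [hYdef, h2]
  exact smul_ne_zero hc0 (smul_ne_zero hε (E_ne_zero _))

theorem lower_odd [CharZero F] (k : ℕ) :
    ∃ R : Gr F (2 * k + 3) →ₗ[F] Gr F (2 * k + 3), IsRB R ∧ R ^ (2 * k + 2) ≠ 0 := by
  set n := 2 * k + 3 with hn
  set B := blk n 1 k with hBdef
  let p : Fin n := ⟨0, by omega⟩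
  let q : Fin n := ⟨1, by omega⟩
  let z : Fin n := ⟨2 * k + 2, by omega⟩
  have hB : B.card = 2 * k := blk_card 1 k (by omega)
  have hp : p ∉ B := by simp [hBdef, blk, p]
  have hq : q ∉ B := by
    simp only [hBdef, blk, q, Finset.mem_filter, Finset.mem_univ, true_and]; omega
  have hz : z ∉ B := by
    simp only [hBdef, blk, z, Finset.mem_filter, Finset.mem_univ, true_and]; omega
  have hpq : p ≠ q := by simp [p, q]
  have hzp : z ≠ p := by simp [p, z]
  have hzq : z ≠ q := fun h => by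
    have h1 : 2 * k + 2 = 1 := congrArg Fin.val h
    omega
  have hsub : ∀ i, i < k → pr n (1 + i) ⊆ B := by
    intro i hi j hj
    simp only [pr, hBdef, blk, Finset.mem_filter, Finset.mem_univ, true_and] at hj ⊢
    omega
  set b := asum F n 1 k with hbdef
  set a := asum F n 0 (k + 1) with hadef
  have hab : a = b + E (pr n 0) := by
    rw [hadef, hbdef, asum, asum, Finset.sum_range_succ']
    congr 1
    refine Finset.sum_congr rfl fun i _ => ?_
    rw [zero_add, add_comm]
  set Y : Gr F n := E {z} with hYdef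
  have hpr : pr n 0 = {p, q} := by
    ext j
    simp only [pr, Finset.mem_filter, Finset.mem_univ, true_and, Finset.mem_insert,
      Finset.mem_singleton, p, q, Fin.ext_iff]
  have hprB : (pr n 0) ∩ B = ∅ := by
    ext j
    simp only [pr, hBdef, blk, Finset.mem_inter, Finset.mem_filter, Finset.mem_univ, true_and,
      Finset.notMem_empty, iff_false]
    omega
  have ht : (2 * k + 2 : ℤ) ≤ 2 * k + 4 := by omega
  have ha : a ∈ Aw (F := F) (Wf B k p q (2 * k + 4)) 2 := by
    rw [hab]
    refine Submodule.add_mem _ (a_mem_wt (by omega) hsub hp hq) (E_mem ?_)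
    rw [wt_Wf, hprB, hpr, if_pos (by simp), if_pos (by simp)]
    simp only [Finset.card_empty, Nat.cast_zero]
    norm_num
  have hc : ∀ x, a * x = x * a := fun x => even_comm (asum_even (by omega)) x
  have hu : a ∈ sp (F := F) fun U => p ∈ U ∨ 2 ≤ (U ∩ B).card := by
    rw [hab]
    exact Submodule.add_mem _ (a_mem_up (by omega) hsub) (E_mem (Or.inl (by rw [hpr]; simp)))
  have hY : Y ∈ Aw (F := F) (Wf B k p q (2 * k + 4)) 0 := by
    refine E_mem ?_
    have h1 : ({z} : Finset (Fin n)) ∩ B = ∅ := Finset.singleton_inter_of_notMem hz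
    rw [wt_Wf, h1, if_neg (by simpa using hzp.symm), if_neg (by simpa using hzq.symm)]
    simp
  have hs0 : (B ∪ {p}).card = 2 * k + 1 := by
    rw [Finset.card_union_of_disjoint (by simpa using hp), hB, Finset.card_singleton]
  have hR : IsRB (Rop (Wf B k p q (2 * k + 4)) a Y (B ∪ {p})) := by
    refine Rop_isRB ha hc (H2_of hB ht hu) (H4_of hB ht hu) hY ?_ ?_ ?_
    · exact E_mul_nd (by simp)
    · rw [hYdef, E_comm {z} (B ∪ {p}), Finset.card_singleton, one_mul, hs0, pow_succ, pow_mul]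
      simp
    · intro T hT hne
      obtain ⟨h1, h2, h3⟩ := wt_two hB ht hT
      have h4 := sub_of hB h3
      have hzT : z ∈ T := by
        by_contra hzT
        apply hne
        ext i
        simp only [Finset.mem_union, Finset.mem_singleton]
        constructor
        · intro hi
          by_cases hip : i = p
          · exact Or.inr hip
          · left
            have hiq : i ≠ q := fun h => h2 (h ▸ hi)
            have hiz : i ≠ z := fun h => hzT (h ▸ hi)
            simp only [hBdef, blk, Finset.mem_filter, Finset.mem_univ, true_and]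
            simp only [p, q, z, ne_eq, Fin.ext_iff] at hip hiq hiz
            have := i.isLt
            omega
        · rintro (hi | rfl)
          · exact h4 hi
          · exact h1
      constructor
      · exact E_mul_nd (by rw [Finset.not_disjoint_iff]; exact ⟨z, by simp, hzT⟩)
      · exact E_mul_nd (by rw [Finset.not_disjoint_iff]; exact ⟨z, hzT, by simp⟩)
  refine ⟨_, hR, ?_⟩
  obtain ⟨c, hc0, hcB⟩ := asum_pow (F := F) (n := n) 1 k (by omega)
  obtain ⟨c', hc0', hcB'⟩ := asum_pow (F := F) (n := n) 0 (k + 1) (by omega)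
  have e : 2 * k + 2 = (k + 1) + 1 + k := by ring
  rw [e]
  have hkill : (E (pr n 0) * E {p} : Gr F n) = 0 :=
    E_mul_nd (by rw [Finset.not_disjoint_iff]; exact ⟨p, by rw [hpr]; simp, by simp⟩)
  have hsq : (E (pr n 0) * E (pr n 0) : Gr F n) = 0 :=
    E_mul_nd (by rw [Finset.not_disjoint_iff]; exact ⟨p, by rw [hpr]; simp, by rw [hpr]; simp⟩)
  have hbc : b * E (pr n 0) = E (pr n 0) * b := even_comm (asum_even (by omega)) _
  have hbp : a ^ k * E {p} = b ^ k * E {p} := by
    rcases k with _ | k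
    · simp
    · rw [hab, pow_add_sq (F := F) hbc hsq, add_mul, smul_mul_assoc, mul_assoc, hkill, mul_zero,
        smul_zero, add_zero]
  refine long hB hp hq hpq ha hc0 hbp hcB hY ?_
  rw [hadef, hcB', smul_mul_assoc]
  have hd : Disjoint (blk n 0 (k + 1)) {z} := by
    rw [Finset.disjoint_singleton_right]
    simp only [blk, z, Finset.mem_filter, Finset.mem_univ, true_and]; omega
  obtain ⟨ε, hε, h2⟩ := E_mul_d' (F := F) hd
  rw [hYdef, h2]
  exact smul_ne_zero hc0' (smul_ne_zero hε (E_ne_zero _))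

/-- A nonzero Rota–Baxter operator on `Gr_1`. -/
theorem lower_one : ∃ R : Gr F 1 →ₗ[F] Gr F 1, IsRB R ∧ R ≠ 0 := by
  classical
  have hdich : ∀ S : Finset (Fin 1), S = ∅ ∨ S = univ := by
    intro S
    rcases S.eq_empty_or_nonempty with h | ⟨i, hi⟩
    · exact Or.inl h
    · right
      refine Finset.eq_univ_iff_forall.2 fun j => ?_
      rw [Subsingleton.elim j i]; exact hi
  have hu : (univ : Finset (Fin 1)) ≠ ∅ := by simp
  have hnd : (E univ * E univ : Gr F 1) = 0 := E_mul_nd (by simp)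
  set R : Gr F 1 →ₗ[F] Gr F 1 := E.constr F fun S => if S = ∅ then E univ else 0 with hR
  have h0 : R (E ∅) = E univ := by rw [hR, Module.Basis.constr_basis, if_pos rfl]
  have h1 : R (E univ) = 0 := by rw [hR, Module.Basis.constr_basis, if_neg hu]
  refine ⟨R, ?_, ?_⟩
  · refine isRB_of_basis fun S T => ?_
    rcases hdich S with rfl | rfl <;> rcases hdich T with rfl | rfl
    · rw [h0, hnd, E_empty, mul_one, one_mul, map_add, h1, add_zero]
    · rw [h0, h1, hnd, mul_zero, mul_zero, add_zero, map_zero]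
    · rw [h0, h1, hnd, zero_mul, zero_mul, zero_add, map_zero]
    · rw [h1]; simp
  · intro h
    rw [h, LinearMap.zero_apply] at h0
    exact E_ne_zero _ h0.symm

end Pool.Agent.Q111.RBG
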