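import Pool.Agent.Q111.RBG.Upper

/-! # Rota–Baxter operators on Grassmann algebras: operators of large nilpotency index -/

namespace Pool.Agent.Q111.RBG

open Finset

variable {F : Type*} [Field F] {n : ℕ}

/-- weight of a set of generators -/
def wt (W : Fin n → ℤ) (S : Finset (Fin n)) : ℤ := ∑ i ∈ S, W i

lemma wt_union (W : Fin n → ℤ) {S T : Finset (Fin n)} (h : Disjoint S T) :
    wt W (S ∪ T) = wt W S + wt W T := Finset.sum_union h

/-- weight spaces -/
noncomputable abbrev Aw (W : Fin n → ℤ) (k : ℤ) : Submodule F (Gr F n) := sp fun S => wt W S = k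

lemma Aw_mul {W : Fin n → ℤ} {k l r : ℤ} (h : k + l = r) {x y : Gr F n} (hx : x ∈ Aw W k)
    (hy : y ∈ Aw W l) : x * y ∈ Aw (F := F) W r :=
  sp_mul (fun S T hS hT hd => by rw [wt_union W hd, hS, hT, h]) hx hy

/-- the operator -/
noncomputable def Rop (W : Fin n → ℤ) (a Y : Gr F n) (s0 : Finset (Fin n)) :
    Gr F n →ₗ[F] Gr F n :=
  E.constr F fun S => if wt W S = -2 then (if S = s0 then Y else 0)
    else ((2 : F) / ((wt W S + 2 : ℤ) : F)) • (a * E S)

section

variable {W : Fin n → ℤ} {a Y : Gr F n} {s0 : Finset (Fin n)}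

lemma Rop_E (S : Finset (Fin n)) : Rop W a Y s0 (E S) =
    if wt W S = -2 then (if S = s0 then Y else 0)
    else ((2 : F) / ((wt W S + 2 : ℤ) : F)) • (a * E S) := by
  rw [Rop, Module.Basis.constr_basis]

lemma Rop_of {k : ℤ} (hk : k ≠ -2) {x : Gr F n} (hx : x ∈ Aw W k) :
    Rop W a Y s0 x = ((2 : F) / ((k + 2 : ℤ) : F)) • (a * x) := by
  induction hx using Submodule.span_induction with
  | zero => simp
  | add u v _ _ hu hv => rw [map_add, hu, hv, mul_add, smul_add]
  | smul c u _ hu => rw [map_smul, hu, mul_smul_comm, smul_comm]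
  | mem u hu =>
    obtain ⟨S, hS, rfl⟩ := hu
    have hS' : wt W S = k := hS
    rw [Rop_E, hS', if_neg hk]

lemma isRB_of_basis {R : Gr F n →ₗ[F] Gr F n}
    (h : ∀ S T, R (E S) * R (E T) = R (R (E S) * E T + E S * R (E T))) : IsRB R := by
  intro x y
  have h1 : ∀ S (y : Gr F n), R (E S) * R y = R (R (E S) * y + E S * R y) := by
    intro S y
    rw [← E.sum_repr y, map_sum, Finset.mul_sum, Finset.mul_sum, Finset.mul_sum,
      ← Finset.sum_add_distrib, map_sum]
    refine Finset.sum_congr rfl fun T _ => ?_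
    rw [map_smul, mul_smul_comm, mul_smul_comm, mul_smul_comm, ← smul_add, map_smul, h]
  rw [← E.sum_repr x, map_sum, Finset.sum_mul, Finset.sum_mul, Finset.sum_mul,
    ← Finset.sum_add_distrib, map_sum]
  refine Finset.sum_congr rfl fun T _ => ?_
  rw [map_smul, smul_mul_assoc, smul_mul_assoc, smul_mul_assoc, ← smul_add, map_smul, h1]

variable [CharZero F]

lemma Rop_isRB (ha : a ∈ Aw W 2) (hc : ∀ x, a * x = x * a)
    (H2 : ∀ S, wt W S = -2 → a * E S = 0) (H4 : ∀ S, wt W S = -4 → a * (a * E S) = 0)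
    (hY : Y ∈ Aw W 0) (hYY : Y * Y = 0) (hY0 : Y * E s0 + E s0 * Y = 0)
    (hYT : ∀ T, wt W T = -2 → T ≠ s0 → Y * E T = 0 ∧ E T * Y = 0) :
    IsRB (Rop W a Y s0) := by
  have H4' : ∀ x ∈ Aw (F := F) W (-4), a * (a * x) = 0 := by
    intro x hx
    induction hx using Submodule.span_induction with
    | zero => simp
    | add u v _ _ hu hv => rw [mul_add, mul_add, hu, hv, add_zero]
    | smul c u _ hu => rw [mul_smul_comm, mul_smul_comm, hu, smul_zero]
    | mem u hu => obtain ⟨S, hS, rfl⟩ := hu; exact H4 S hS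
  have hφ : ∀ S, wt W S = -2 → Rop W a Y s0 (E S) ∈ Aw (F := F) W 0 := by
    intro S hS
    rw [Rop_E, if_pos hS]
    split_ifs
    · exact hY
    · exact Submodule.zero_mem _
  refine isRB_of_basis fun S T => ?_
  by_cases hi : wt W S = -2
  · by_cases hj : wt W T = -2
    · rw [Rop_E, Rop_E, if_pos hi, if_pos hj]
      by_cases hS : S = s0
      · by_cases hT : T = s0
        · rw [if_pos hS, if_pos hT, hS, hT, hYY, hY0, map_zero]
        · rw [if_pos hS, if_neg hT, mul_zero, mul_zero, add_zero, (hYT T hj hT).1, map_zero]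
      · by_cases hT : T = s0
        · rw [if_neg hS, if_pos hT, zero_mul, zero_mul, zero_add, (hYT S hi hS).2, map_zero]
        · rw [if_neg hS, if_neg hT]; simp
    · -- i = -2, j ≠ -2
      have e1 : Rop W a Y s0 (E T) = ((2 : F) / ((wt W T + 2 : ℤ) : F)) • (a * E T) := by
        rw [Rop_E, if_neg hj]
      have e2 : E S * Rop W a Y s0 (E T) = 0 := by
        rw [e1, mul_smul_comm, ← mul_assoc, ← hc, H2 S hi, zero_mul, smul_zero]
      rw [e2, add_zero, Rop_of hj (Aw_mul (by rw [zero_add]) (hφ S hi) (E_mem rfl)), e1,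
        mul_smul_comm, ← mul_assoc, ← hc, mul_assoc]
  · by_cases hj : wt W T = -2
    · have e1 : Rop W a Y s0 (E S) = ((2 : F) / ((wt W S + 2 : ℤ) : F)) • (a * E S) := by
        rw [Rop_E, if_neg hi]
      have e2 : Rop W a Y s0 (E S) * E T = 0 := by
        rw [e1, smul_mul_assoc, hc, mul_assoc, H2 T hj, mul_zero, smul_zero]
      rw [e2, zero_add, Rop_of hi (Aw_mul (by rw [add_zero]) (E_mem rfl) (hφ T hj)), e1,
        smul_mul_assoc, mul_assoc]
    · -- generic case
      have e1 : Rop W a Y s0 (E S) = ((2 : F) / ((wt W S + 2 : ℤ) : F)) • (a * E S) := by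
        rw [Rop_E, if_neg hi]
      have e2 : Rop W a Y s0 (E T) = ((2 : F) / ((wt W T + 2 : ℤ) : F)) • (a * E T) := by
        rw [Rop_E, if_neg hj]
      have hi' : ((wt W S + 2 : ℤ) : F) ≠ 0 := by
        rw [Int.cast_ne_zero]; omega
      have hj' : ((wt W T + 2 : ℤ) : F) ≠ 0 := by
        rw [Int.cast_ne_zero]; omega
      have hw : (E S * E T : Gr F n) ∈ Aw (F := F) W (wt W S + wt W T) :=
        Aw_mul rfl (E_mem rfl) (E_mem rfl)
      have e3 : Rop W a Y s0 (E S) * E T + E S * Rop W a Y s0 (E T) =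
          ((2 : F) / ((wt W S + 2 : ℤ) : F) + (2 : F) / ((wt W T + 2 : ℤ) : F)) •
            (a * (E S * E T)) := by
        rw [e1, e2, smul_mul_assoc, mul_smul_comm, add_smul, mul_assoc a, ← mul_assoc (E S) a,
          ← hc (E S), mul_assoc a]
      have e4 : Rop W a Y s0 (E S) * Rop W a Y s0 (E T) =
          ((2 : F) / ((wt W S + 2 : ℤ) : F) * ((2 : F) / ((wt W T + 2 : ℤ) : F))) •
            (a * (a * (E S * E T))) := by
        rw [e1, e2, smul_mul_assoc, mul_smul_comm, smul_smul, mul_assoc a, ← mul_assoc (E S) a,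
          ← hc (E S), mul_assoc a]
      rw [e3, e4]
      by_cases hk : wt W S + wt W T = -4
      · rw [H4' _ (hk ▸ hw), smul_zero]
        have : (2 : F) / ((wt W S + 2 : ℤ) : F) + (2 : F) / ((wt W T + 2 : ℤ) : F) = 0 := by
          have h5 : ((wt W T + 2 : ℤ) : F) = -((wt W S + 2 : ℤ) : F) := by
            rw [← Int.cast_neg]; congr 1; omega
          rw [h5, div_neg, add_neg_cancel]
        rw [this, zero_smul, map_zero]
      · have hk' : ((wt W S + wt W T + 2 + 2 : ℤ) : F) ≠ 0 := by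
          rw [Int.cast_ne_zero]; omega
        rw [map_smul, Rop_of (k := wt W S + wt W T + 2) (by omega)
          (Aw_mul (by ring) ha hw), smul_smul]
        congr 1
        field_simp
        push_cast
        ring

lemma chain (ha : a ∈ Aw W 2) {k : ℤ} {x : Gr F n} (hx : x ∈ Aw W k) (j : ℕ)
    (h : ∀ i : ℕ, i < j → k + 2 * i ≠ -2) :
    ∃ c : F, c ≠ 0 ∧ ((Rop W a Y s0) ^ j) x = c • (a ^ j * x) := by
  induction j with
  | zero => exact ⟨1, one_ne_zero, by simp⟩
  | succ j ih =>
    obtain ⟨c, hc, hx'⟩ := ih fun i hi => h i (by omega)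
    have hmem : ∀ j : ℕ, a ^ j * x ∈ Aw (F := F) W (k + 2 * j) := by
      intro j
      induction j with
      | zero => simpa using hx
      | succ j ih => rw [pow_succ', mul_assoc]; exact Aw_mul (by push_cast; ring) ha ih
    refine ⟨c * ((2 : F) / ((k + 2 * j + 2 : ℤ) : F)), ?_, ?_⟩
    · refine mul_ne_zero hc (div_ne_zero two_ne_zero ?_)
      rw [Int.cast_ne_zero]
      have := h j (by omega)
      omega
    · rw [pow_succ', Module.End.mul_apply, hx', map_smul, Rop_of (h j (by omega)) (hmem j),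
        smul_smul, ← mul_assoc, ← pow_succ']

end

/-! ### powers of sums of pairs -/

/-- the pair `{2i, 2i+1}` -/
def pr (n i : ℕ) : Finset (Fin n) := univ.filter fun j => j.val = 2 * i ∨ j.val = 2 * i + 1

/-- the block `{2s, …, 2(s+k)-1}` -/
def blk (n s k : ℕ) : Finset (Fin n) := univ.filter fun j => 2 * s ≤ j.val ∧ j.val < 2 * (s + k)

/-- sum of pairs -/
noncomputable def asum (F : Type*) [Field F] (n s k : ℕ) : Gr F n :=
  ∑ i ∈ range k, E (pr n (s + i))

lemma pr_card {i : ℕ} (h : 2 * i + 1 < n) : (pr n i).card = 2 := by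
  have : pr n i = {⟨2 * i, by omega⟩, ⟨2 * i + 1, h⟩} := by
    ext j
    simp [pr, Fin.ext_iff]
  rw [this, Finset.card_pair]
  simp

lemma pr_even {i : ℕ} (h : 2 * i + 1 < n) : (E (pr n i) : Gr F n) ∈ Je (F := F) (n := n) 2 :=
  E_mem ⟨by rw [pr_card h], by rw [pr_card h]; exact even_two⟩

lemma asum_even {s k : ℕ} (h : 2 * (s + k) ≤ n) : asum F n s k ∈ Je (F := F) (n := n) 2 :=
  Submodule.sum_mem _ fun i hi => pr_even (by have := Finset.mem_range.1 hi; omega)

lemma pow_add_sq {A : Type*} [Ring A] [Algebra F A] {x y : A} (h : x * y = y * x)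
    (hy : y * y = 0) (k : ℕ) :
    (x + y) ^ (k + 1) = x ^ (k + 1) + ((k + 1 : ℕ) : F) • (x ^ k * y) := by
  induction k with
  | zero => simp
  | succ k ih =>
    have hc : Commute x y := h
    have h1 : y * (x ^ k * y) = 0 := by
      rw [← mul_assoc, ← (hc.pow_left k).eq, mul_assoc, hy, mul_zero]
    have h2 : y * x ^ (k + 1) = x ^ (k + 1) * y := ((hc.pow_left (k + 1)).eq).symm
    rw [pow_succ' (x + y), ih, add_mul, mul_add, mul_add, mul_smul_comm, mul_smul_comm, h1,
      smul_zero, add_zero, h2, ← mul_assoc, ← pow_succ', ← pow_succ']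
    push_cast
    module

lemma asum_pow [CharZero F] (s k : ℕ) (h : 2 * (s + k) ≤ n) :
    ∃ c : F, c ≠ 0 ∧ asum F n s k ^ k = c • E (blk n s k) := by
  induction k with
  | zero =>
    refine ⟨1, one_ne_zero, ?_⟩
    have : blk n s 0 = ∅ := by
      ext j; simp [blk]
    rw [this, E_empty]; simp
  | succ k ih =>
    obtain ⟨c, hc, hk⟩ := ih (by omega)
    have hs : asum F n s (k + 1) = asum F n s k + E (pr n (s + k)) := by
      rw [asum, Finset.sum_range_succ]; rfl
    have h0 : asum F n s k ^ (k + 1) = 0 := by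
      rw [pow_succ, hk, smul_mul_assoc, asum, Finset.mul_sum]
      rw [Finset.sum_eq_zero, smul_zero]
      intro i hi
      have hi' := Finset.mem_range.1 hi
      apply E_mul_nd
      rw [Finset.not_disjoint_iff]
      refine ⟨⟨2 * (s + i), by omega⟩, ?_, ?_⟩
      · simp only [blk, Finset.mem_filter, Finset.mem_univ, true_and]; omega
      · simp [pr]
    have hcom : asum F n s k * E (pr n (s + k)) = E (pr n (s + k)) * asum F n s k :=
      even_comm (asum_even (by omega)) _
    have hsq : (E (pr n (s + k)) * E (pr n (s + k)) : Gr F n) = 0 := by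
      apply E_mul_nd
      rw [Finset.not_disjoint_iff]
      exact ⟨⟨2 * (s + k), by omega⟩, by simp [pr], by simp [pr]⟩
    have hd : Disjoint (blk n s k) (pr n (s + k)) := by
      rw [Finset.disjoint_left]
      intro j hj hj'
      simp only [blk, pr, Finset.mem_filter, Finset.mem_univ, true_and] at hj hj'
      omega
    have hu : blk n s k ∪ pr n (s + k) = blk n s (k + 1) := by
      ext j
      simp only [blk, pr, Finset.mem_union, Finset.mem_filter, Finset.mem_univ, true_and]
      omega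
    rw [hs, pow_add_sq (F := F) hcom hsq, h0, zero_add, hk, smul_mul_assoc]
    have hk1 : ((k + 1 : ℕ) : F) ≠ 0 := Nat.cast_ne_zero.2 (Nat.succ_ne_zero k)
    rcases E_mul_d (F := F) hd with h1 | h1
    · exact ⟨((k + 1 : ℕ) : F) * c, mul_ne_zero hk1 hc, by rw [h1, hu, smul_smul]⟩
    · exact ⟨-(((k + 1 : ℕ) : F) * c), neg_ne_zero.2 (mul_ne_zero hk1 hc), by
        rw [h1, hu, smul_smul, smul_neg, neg_smul]⟩

end Pool.Agent.Q111.RBG
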