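import Pool.Agent.Q111.RBG.Basic

/-! # Rota–Baxter operators on Grassmann algebras: upper bound for the nilpotency index -/

namespace Pool.Agent.Q111.RBG

open Finset

/-- Rota–Baxter operator of weight `0`. -/
def IsRB {F A : Type*} [Field F] [Ring A] [Algebra F A] (R : A →ₗ[F] A) : Prop :=
  ∀ x y, R x * R y = R (R x * y + x * R y)

section General

variable {F : Type*} [Field F] {A : Type*} [Ring A] [Algebra F A] {R : A →ₗ[F] A}

lemma rb_left (hR : IsRB R) (x : A) : R 1 * R x = R (R 1 * x) + R (R x) := by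
  rw [hR 1 x, one_mul, map_add]

lemma rb_right (hR : IsRB R) (x : A) : R x * R 1 = R (R x) + R (x * R 1) := by
  rw [hR x 1, mul_one, map_add]

lemma rb_comm (hR : IsRB R) (x : A) :
    R 1 * R x - R x * R 1 = R (R 1 * x - x * R 1) := by
  rw [rb_left hR, rb_right hR, map_sub]; abel

lemma rb_pow (hR : IsRB R) (k : ℕ) : ((k + 1 : ℕ) : F) • R (R 1 ^ k) = R 1 ^ (k + 1) := by
  induction k with
  | zero => simp
  | succ k ih =>
    have h1 : R 1 ^ (k + 1 + 1) = ((k + 1 : ℕ) : F) • (R 1 * R (R 1 ^ k)) := by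
      rw [pow_succ', ← ih, mul_smul_comm]
    rw [h1, rb_left hR, ← pow_succ', smul_add, ← map_smul R _ (R (R 1 ^ k)), ih]
    push_cast
    module

lemma ad_pow (hR : IsRB R) (k : ℕ) (x : A) :
    R 1 * (R ^ k) x = (R ^ k) (R 1 * x) + (k : F) • (R ^ (k + 1)) x := by
  induction k with
  | zero => simp
  | succ k ih =>
    rw [pow_succ' R k, Module.End.mul_apply, rb_left hR, ih, map_add, map_smul,
      pow_succ' R (k + 1), Module.End.mul_apply, pow_succ' R k, Module.End.mul_apply,
      Module.End.mul_apply]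
    push_cast
    module

lemma nil_of_key [CharZero F] (hR : IsRB R) {K : ℕ}
    (h : ∀ p q, p + q = K → ∀ x, R 1 ^ p * R (R 1 ^ q * x) = 0) : R ^ (K + 1) = 0 := by
  have key : ∀ j p q, p + q + j = K → ∀ x, R 1 ^ p * (R ^ (j + 1)) (R 1 ^ q * x) = 0 := by
    intro j
    induction j with
    | zero => intro p q hpq x; rw [zero_add, pow_one]; exact h p q hpq x
    | succ j ih =>
      intro p q hpq x
      have h1 := ad_pow hR (j + 1) (R 1 ^ q * x)
      have h2 : R 1 ^ p * (R 1 * (R ^ (j + 1)) (R 1 ^ q * x)) = 0 := by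
        rw [← mul_assoc, ← pow_succ]
        exact ih (p + 1) q (by omega) x
      have h3 : R 1 ^ p * (R ^ (j + 1)) (R 1 * (R 1 ^ q * x)) = 0 := by
        rw [← mul_assoc (R 1), ← pow_succ']
        exact ih p (q + 1) (by omega) x
      rw [h1, mul_add, h3, zero_add, mul_smul_comm] at h2
      rcases smul_eq_zero.1 h2 with h4 | h4
      · exact absurd (Nat.cast_eq_zero.1 h4) (Nat.succ_ne_zero j)
      · exact h4
  ext x
  have := key K 0 0 (by omega) x
  simpa using this

end General

variable {F : Type*} [Field F] [CharZero F] {n : ℕ} {R : Gr F n →ₗ[F] Gr F n}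

lemma pow_J {k : ℕ} {x : Gr F n} (hx : x ∈ J k) (p : ℕ) : x ^ p ∈ J (F := F) (n := n) (p * k) := by
  induction p with
  | zero => rw [zero_mul]; exact J_zero _
  | succ p ih => rw [pow_succ]; exact J_mul (by rw [Nat.succ_mul]) ih hx

lemma nilp {x : Gr F n} (hx : x ∈ J 1) : x ^ (n + 1) = 0 :=
  J_top (Nat.lt_succ_self n) (by simpa using pow_J hx (n + 1))

lemma image_J (hR : IsRB R) (x : Gr F n) : R x ∈ J (F := F) (n := n) 1 := by
  obtain ⟨c, y, hy, hxy⟩ := scalar_part (R x)
  by_cases hc : c = 0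
  · rw [hxy, hc, zero_smul, zero_add]; exact hy
  · exfalso
    have hg : R (c⁻¹ • x) = 1 + c⁻¹ • y := by
      rw [map_smul, hxy, smul_add, smul_smul, inv_mul_cancel₀ hc, one_smul]
    have hmul : ∀ u ∈ LinearMap.range R, ∀ v ∈ LinearMap.range R, u * v ∈ LinearMap.range R := by
      rintro _ ⟨u, rfl⟩ _ ⟨v, rfl⟩
      exact ⟨_, (hR u v).symm⟩
    have hgI : (1 + c⁻¹ • y) ∈ LinearMap.range R := ⟨_, hg⟩
    have hk : ∀ k : ℕ, 1 - (-(c⁻¹ • y)) ^ k ∈ LinearMap.range R := by
      intro k
      induction k with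
      | zero => simp
      | succ k ih =>
        have e : 1 - (-(c⁻¹ • y)) ^ (k + 1) = (1 - (-(c⁻¹ • y)) ^ k) + (1 + c⁻¹ • y) -
            (1 - (-(c⁻¹ • y)) ^ k) * (1 + c⁻¹ • y) := by
          rw [pow_succ]
          generalize (-(c⁻¹ • y)) ^ k = w
          generalize c⁻¹ • y = t
          noncomm_ring
        rw [e]
        exact Submodule.sub_mem _ (Submodule.add_mem _ ih hgI) (hmul _ ih _ hgI)
    have h1 := hk (n + 1)
    rw [nilp (Submodule.neg_mem _ (Submodule.smul_mem _ _ hy)), sub_zero] at h1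
    obtain ⟨z, hz⟩ := h1
    have h2 := hR z z
    rw [hz, one_mul, one_mul, mul_one, ← two_smul F z, map_smul, hz] at h2
    have h3 : ((1 : F) - 2) • (1 : Gr F n) = 0 := by
      rw [sub_smul, one_smul, ← h2, sub_self]
    rcases smul_eq_zero.1 h3 with h4 | h4
    · norm_num at h4
    · exact one_ne_zero h4

lemma R_top (hR : IsRB R) : R (E univ) = 0 := by
  by_contra hu
  obtain ⟨y, hy⟩ := frob hu
  have h0 : (E univ : Gr F n) * R y = 0 :=
    J_top (Nat.lt_succ_self n) (J_mul (k := n) (l := 1) le_rfl (E_mem (by simp)) (image_J hR y))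
  have h1 := hR (E univ) y
  rw [hy, h0, add_zero] at h1
  have h2 : ∀ k : ℕ, R (E univ) * R y ^ k = R (E univ) := by
    intro k
    induction k with
    | zero => simp
    | succ k ih => rw [pow_succ, ← mul_assoc, ih, h1]
  apply hu
  rw [← h2 (n + 1), nilp (image_J hR y), mul_zero]

lemma R_last (hR : IsRB R) {x : Gr F n} (hx : x ∈ J n) : R x = 0 := by
  obtain ⟨c, rfl⟩ := J_last hx
  rw [map_smul, R_top hR, smul_zero]

lemma odd_sq {k : ℕ} {x : Gr F n} (hx : x ∈ Jo k) : x * x = 0 := by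
  have h := odd_anti hx hx
  have h2 : (2 : F) • (x * x) = 0 := by
    rw [two_smul]
    nth_rewrite 1 [h]
    simp
  rcases smul_eq_zero.1 h2 with h3 | h3
  · norm_num at h3
  · exact h3

section AB

variable {β γ : Gr F n} (hβ : β ∈ Je 1) (hγ : γ ∈ Jo 1)
include hβ hγ

omit hγ in
lemma beta_pow (k : ℕ) : β ^ k ∈ J (F := F) (n := n) (2 * k) := by
  have := pow_J (Je_one hβ) k
  rwa [mul_comm] at this

omit hγ in
lemma beta_comm (k : ℕ) (y : Gr F n) : β ^ k * y = y * β ^ k := by
  have h : Commute β y := even_comm hβ y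
  exact (h.pow_left k).eq

lemma ab_pow (k : ℕ) : (β + γ) ^ (k + 1) = β ^ (k + 1) + ((k + 1 : ℕ) : F) • (β ^ k * γ) := by
  induction k with
  | zero => simp
  | succ k ih =>
    have h1 : γ * (β ^ k * γ) = 0 := by
      rw [← mul_assoc, ← beta_comm hβ k γ, mul_assoc, odd_sq hγ, mul_zero]
    have h2 : γ * β ^ (k + 1) = β ^ (k + 1) * γ := (beta_comm hβ _ _).symm
    rw [pow_succ' (β + γ), ih, add_mul, mul_add, mul_add, mul_smul_comm, mul_smul_comm, h1,
      smul_zero, add_zero, h2, ← mul_assoc, ← pow_succ', ← pow_succ']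
    push_cast
    module

lemma ab_comm {k : ℕ} {y0 y1 : Gr F n} (h0 : y0 ∈ Je k) (h1 : y1 ∈ Jo k) :
    (β + γ) * (y0 + y1) - (y0 + y1) * (β + γ) = (2 : F) • (γ * y1) := by
  have e1 : β * (y0 + y1) = (y0 + y1) * β := even_comm hβ _
  have e2 : γ * y0 = y0 * γ := (even_comm h0 γ).symm
  have e3 : y1 * γ = - (γ * y1) := odd_anti h1 hγ
  rw [add_mul, mul_add (y0 + y1), e1, mul_add γ, add_mul y0 y1 γ, e2, e3, two_smul]
  abel

end AB

/-- The key vanishing. -/
lemma key (hR : IsRB R) (hn : 2 ≤ n) {p q : ℕ} (hpq : p + q + 1 = n) (x : Gr F n) :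
    R 1 ^ p * R (R 1 ^ q * x) = 0 := by
  obtain ⟨β, hβ, γ, hγ, hab⟩ := parity (image_J hR 1)
  obtain ⟨c, y, hy, rfl⟩ := scalar_part x
  have hpow : ∀ k, R 1 ^ (k + 1) ∈ J (F := F) (n := n) (2 * k + 1) := by
    intro k
    rw [hab, ab_pow hβ hγ]
    refine Submodule.add_mem _ (J_le (by omega) (beta_pow hβ (k + 1)))
      (Submodule.smul_mem _ _ (J_mul (k := 2 * k) (l := 1) le_rfl (beta_pow hβ k) (Jo_J hγ)))
  -- scalar part
  have hsc : R 1 ^ p * R (R 1 ^ q * (c • 1)) = 0 := by
    rw [mul_smul_comm, mul_one, map_smul, mul_smul_comm]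
    have h1 := rb_pow hR q
    have h2 : (((q + 1 : ℕ) : F)) • (R 1 ^ p * R (R 1 ^ q)) = 0 := by
      rw [← mul_smul_comm, h1, ← pow_add]
      have h3 : p + (q + 1) = (p + q) + 1 := by omega
      rw [h3]
      exact J_top (by omega) (hpow (p + q))
    rcases smul_eq_zero.1 h2 with h4 | h4
    · exact absurd (Nat.cast_eq_zero.1 h4) (Nat.succ_ne_zero q)
    · rw [h4, smul_zero]
  rw [mul_add, map_add, mul_add, hsc, zero_add]
  -- commutator part
  have hcomm : ∀ z : Gr F n, (β + γ) * R z - R z * (β + γ) = R ((β + γ) * z - z * (β + γ)) := by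
    intro z; rw [← hab]; exact rb_comm hR z
  by_cases hq : n ≤ 2 * q
  · -- `a^q * y ∈ J n`
    have h1 : R 1 ^ q * y ∈ J (F := F) (n := n) n := by
      obtain ⟨q', rfl⟩ : ∃ q', q = q' + 1 := ⟨q - 1, by omega⟩
      exact J_mul (by omega) (hpow q') hy
    rw [R_last hR h1, mul_zero]
  · by_cases hp : n + 1 ≤ 2 * p
    · obtain ⟨p', rfl⟩ : ∃ p', p = p' + 1 := ⟨p - 1, by omega⟩
      exact J_top (Nat.lt_succ_self n) (J_mul (by omega) (hpow p') (image_J hR _))
    · -- now `2p ≤ n`, `2q < n`, `p + q + 1 = n`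
      rcases Nat.even_or_odd' n with ⟨m, hm | hm⟩
      · -- n = 2m, p = m, q = m - 1
        obtain ⟨q', hq'⟩ : ∃ q', m = q' + 1 := ⟨m - 1, by omega⟩
        have hp1 : p = q' + 1 := by omega
        have hq1 : q = q' := by omega
        subst hp1 hq1
        set r := R (R 1 ^ q * y) with hr
        obtain ⟨r0, hr0, r1, hr1, hrr⟩ := parity (image_J hR (R 1 ^ q * y))
        rw [← hr] at hrr
        have e1 : β ^ (q + 1) * r = 0 :=
          J_top (Nat.lt_succ_self n)
            (J_mul (k := 2 * (q + 1)) (l := 1) (by omega) (beta_pow hβ _) (image_J hR _))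
        have e2 : β ^ q * γ * r0 = 0 :=
          J_top (Nat.lt_succ_self n)
            (J_mul (k := 2 * q + 1) (l := 2) (by omega)
              (J_mul (k := 2 * q) (l := 1) le_rfl (beta_pow hβ _) (Jo_J hγ)) (Je_one hr0))
        have e3 : β ^ q * ((2 : F) • (γ * r1)) = 0 := by
          rw [← ab_comm hβ hγ hr0 hr1, ← hrr, hr, hcomm]
          obtain ⟨y0, hy0, y1, hy1, hyy⟩ := parity hy
          have f1 : (β + γ) * (R 1 ^ q * y) - R 1 ^ q * y * (β + γ) =
              R 1 ^ q * ((2 : F) • (γ * y1)) := by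
            rw [← ab_comm hβ hγ hy0 hy1, ← hyy, ← hab, mul_sub, ← mul_assoc, ← mul_assoc,
              ← mul_assoc, ← pow_succ, ← pow_succ']
          have f2 : R 1 ^ q * (γ * y1) = β ^ q * (γ * y1) := by
            rcases q with _ | q
            · simp
            · rw [hab, ab_pow hβ hγ, add_mul, smul_mul_assoc, mul_assoc (β ^ q),
                ← mul_assoc γ γ, odd_sq hγ, zero_mul, mul_zero, smul_zero, add_zero]
          rw [f1, mul_smul_comm, f2, R_last hR, mul_zero]
          refine Submodule.smul_mem _ _ ?_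
          exact J_mul (k := 2 * q) (l := 2) (by omega) (beta_pow hβ _)
            (J_mul (k := 1) (l := 1) le_rfl (Jo_J hγ) (Jo_J hy1))
        have e4 : β ^ q * (γ * r1) = 0 := by
          rw [mul_smul_comm] at e3
          rcases smul_eq_zero.1 e3 with h | h
          · norm_num at h
          · exact h
        rw [hab, ab_pow hβ hγ, add_mul, e1, zero_add, smul_mul_assoc, hrr, mul_add, e2,
          zero_add, mul_assoc, e4, smul_zero]
      · -- n = 2m+1, p = q = m
        have hp1 : p = m := by omega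
        have hq1 : q = m := by omega
        obtain ⟨m', hm'⟩ : ∃ m', m = m' + 1 := ⟨m - 1, by omega⟩
        subst hp1
        subst hq1
        subst hm'
        obtain ⟨y0, hy0, y1, hy1, hyy⟩ := parity hy
        -- `R (a^q y) = (q/2) [a, R(β^{q-1} y)]`
        obtain ⟨s0, hs0, s1, hs1, hss⟩ := parity (image_J hR (β ^ m' * y))
        have f1 : R (β ^ (m' + 1) * y) = 0 :=
          R_last hR (J_mul (k := 2 * (m' + 1)) (l := 1) (by omega) (beta_pow hβ _) hy)
        have f2 : R (β ^ m' * γ * y0) = 0 :=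
          R_last hR (J_mul (k := 2 * m' + 1) (l := 2) (by omega)
            (J_mul (k := 2 * m') (l := 1) le_rfl (beta_pow hβ _) (Jo_J hγ)) (Je_one hy0))
        have f3 : R ((2 : F) • (β ^ m' * γ * y1)) = (2 : F) • (γ * s1) := by
          rw [← ab_comm hβ hγ hs0 hs1, ← hss, hcomm]
          congr 1
          have g1 := ab_comm hβ hγ hy0 hy1
          rw [← hyy] at g1
          rw [mul_assoc, ← mul_smul_comm, ← g1, mul_sub, ← mul_assoc, ← mul_assoc, ← mul_assoc,
            beta_comm hβ m' (β + γ)]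
        rw [map_smul] at f3
        have f4 : R (β ^ m' * γ * y1) = γ * s1 := by
          have : (2 : F) • (R (β ^ m' * γ * y1) - γ * s1) = 0 := by
            rw [smul_sub, f3, sub_self]
          rcases smul_eq_zero.1 this with h | h
          · norm_num at h
          · exact sub_eq_zero.1 h
        have f5 : R (R 1 ^ (m' + 1) * y) = ((m' + 1 : ℕ) : F) • (γ * s1) := by
          rw [hab, ab_pow hβ hγ, add_mul, map_add, f1, zero_add, smul_mul_assoc, map_smul]
          congr 1
          rw [hyy, mul_add, map_add, f2, zero_add, f4]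
        rw [f5, mul_smul_comm, hab, ab_pow hβ hγ, add_mul, smul_mul_assoc, mul_assoc (β ^ m'),
          ← mul_assoc γ γ, odd_sq hγ, zero_mul, mul_zero, smul_zero, add_zero]
        have f6 : β ^ (m' + 1) * (γ * s1) = 0 :=
          J_top (Nat.lt_succ_self n)
            (J_mul (k := 2 * (m' + 1)) (l := 2) (by omega) (beta_pow hβ _)
              (J_mul (k := 1) (l := 1) le_rfl (Jo_J hγ) (Jo_J hs1)))
        rw [f6, smul_zero]

theorem upper (hR : IsRB R) (hn : 2 ≤ n) : R ^ n = 0 := by
  obtain ⟨K, rfl⟩ : ∃ K, n = K + 1 := ⟨n - 1, by omega⟩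
  exact nil_of_key hR fun p q hpq x => key hR hn (by omega) x

theorem upper_one {R : Gr F 1 →ₗ[F] Gr F 1} (hR : IsRB R) : R ^ 2 = 0 := by
  refine nil_of_key (K := 1) hR fun p q hpq x => ?_
  rcases p with _ | p
  · have : q = 1 := by omega
    subst this
    rw [pow_zero, one_mul, pow_one]
    exact R_last hR (J_mul (k := 1) (l := 0) (by omega) (image_J hR 1) (J_zero x))
  · have : p = 0 := by omega
    subst this
    rw [zero_add, pow_one]
    exact J_top (k := 2) (by norm_num) (J_mul (k := 1) (l := 1) le_rfl (image_J hR 1) (image_J hR _))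

end Pool.Agent.Q111.RBG
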